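import Pool.Agent.H30.MV.Full

/-! # The sums S_n(q) of the question: full answer to Q1 -/

set_option autoImplicit false

open Finset Polynomial

namespace Pool.Agent.Results.MP_b125a4_nt.Full

open Pool.H30.MV.Full

section conclusion

/-- **Full answer to Q1.**  For `n ≡ 1 (mod 4)` the congruence `S_n(q) ≡ 0 (mod Φ_n(q)^2)`
holds for every `n ≠ 1`; for `n = 1` (where `S_1 = 1`) it fails. -/
theorem result (n : ℕ) (hn : n % 4 = 1) :
    CongrZero (S n) (cyclotomic n ℤ ^ 2) ↔ n ≠ 1 :=
  Pool.H30.MV.Full.result n hn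

end conclusion

end Pool.Agent.Results.MP_b125a4_nt.Full
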